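import Pool.Agent.Helper98.UN.MOV
import Pool.Agent.Helper90.UN.Goals

/-!
PROJECT UN (MP_d3128a_ag), the goal S_MOV (helper98).
-/

set_option autoImplicit false

noncomputable section

namespace Pool.Agent.Helper98.UN.MOVG

open Pool.Agent.Helper97.Nag Pool.Agent.Helper90.UN Pool.Agent.Helper98.UN

/-- the zeros of a row: `a + 1` at the static points, `a` at the movers -/
theorem zeros2 (b p a : ℕ) (hp : p ≤ b) :
    b * (a + 1) ≤ (∑ l : Fin b, (if (l : ℕ) < p then a else a + 1)) + p := by
  have h1 : ∑ l : Fin b, (if (l : ℕ) < p then a else a + 1) =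
      ∑ i ∈ Finset.range b, (if i < p then a else a + 1) :=
    Fin.sum_univ_eq_sum_range (fun i => if i < p then a else a + 1) b
  have h2 : ∑ i ∈ Finset.range b, (if i < p then a else a + 1) +
      ∑ i ∈ Finset.range b, (if i < p then 1 else 0) = ∑ i ∈ Finset.range b, (a + 1) := by
    rw [← Finset.sum_add_distrib]
    apply Finset.sum_congr rfl
    intro i _
    split_ifs <;> rfl
  have h3 : ∑ i ∈ Finset.range b, (if i < p then 1 else 0) = p := by
    rw [← Finset.sum_filter, Finset.sum_const, smul_eq_mul, mul_one]
    have h4 : (Finset.range b).filter (fun i => i < p) = Finset.range p := by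
      ext i
      rw [Finset.mem_filter, Finset.mem_range, Finset.mem_range]
      omega
    rw [h4, Finset.card_range]
  rw [Finset.sum_const, Finset.card_range, smul_eq_mul, h3] at h2
  rw [h1]
  omega

theorem t : S_MOV := by
  intro b p m R hp h1 h2 a hst hmo
  obtain ⟨G, hG⟩ : ∃ G : ℕ → Fin b → ℕ → ℚ, G = fun (i : ℕ) (l : Fin b) (α : ℕ) =>
      ∑ X ∈ R i, a i X * (((Ring.choose X α : ℤ) : ℚ) * (((l : ℕ) : ℚ) + 1) ^ X) := ⟨_, rfl⟩
  -- static points
  have hs : ∀ l : Fin b, ¬ (l : ℕ) < p → ∀ i α, α + i < m → G i l α = 0 := by
    intro l hl i α hi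
    rw [hG]
    exact hst l (by omega) α i hi
  -- movers
  have hm : ∀ l : Fin b, (l : ℕ) < p → ∀ α β, α + β < m →
      ∑ i ∈ Finset.range (m + 1), G i l α * ((i.choose β : ℕ) : ℚ) = 0 := by
    intro l hl α β hαβ
    have h3 := hmo l hl α β hαβ
    refine Eq.trans ?_ h3
    apply Finset.sum_congr rfl
    intro i _
    rw [hG]
    ring
  have hz : ∀ i l α, (∀ X ∈ R i, a i X = 0) → G i l α = 0 := by
    intro i l α h3
    rw [hG]
    apply Finset.sum_eq_zero
    intro X hX
    rw [h3 X hX, zero_mul]
  -- induction
  have hI : ∀ k ≤ m, (∀ i, m - k ≤ i → i < m → ∀ X ∈ R i, a i X = 0) ∧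
      ∀ l : Fin b, (l : ℕ) < p → ∀ i ≤ m, ∀ α < k, G i l α = 0 := by
    intro k
    induction k with
    | zero =>
      intro _
      refine ⟨fun i h3 h4 => ?_, fun l _ i _ α h3 => ?_⟩
      · omega
      · omega
    | succ k ih =>
      intro hk
      obtain ⟨ih1, ih2⟩ := ih (by omega)
      have h3 : ∀ X ∈ R (m - k - 1), a (m - k - 1) X = 0 := by
        apply Pool.Agent.Helper65.Nag.HOR.root
          (fun l : Fin b => if (l : ℕ) < p then k else k + 1) (R (m - k - 1))
          (fun X => a (m - k - 1) X)
        · intro l α hα
          have h4 : G (m - k - 1) l α = 0 := by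
            by_cases hl : (l : ℕ) < p
            · rw [if_pos hl] at hα
              exact ih2 l hl _ (by omega) α hα
            · rw [if_neg hl] at hα
              exact hs l hl _ _ (by omega)
          rw [hG] at h4
          exact h4
        · have h4 := h1 (m - k - 1) (by omega)
          have h5 : m - (m - k - 1) = k + 1 := by omega
          rw [h5] at h4
          have h6 := zeros2 b p k hp
          omega
      have h4 : ∀ i, m - (k + 1) ≤ i → i < m → ∀ X ∈ R i, a i X = 0 := by
        intro i h5 h6
        by_cases h7 : i = m - k - 1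
        · rw [h7]
          exact h3
        · exact ih1 i (by omega) h6
      refine ⟨h4, ?_⟩
      intro l hl i hi α hα
      by_cases hαk : α < k
      · exact ih2 l hl i hi α hαk
      · have h5 : α = k := by omega
        subst h5
        by_cases h6 : m - α - 1 ≤ i ∧ i < m
        · exact hz i l α (h4 i (by omega) h6.2)
        · obtain ⟨I, hI⟩ : ∃ I : Finset ℕ, I = insert m (Finset.range (m - α - 1)) := ⟨_, rfl⟩
          have h7 := one (m - α) I (fun i => G i l α) ?_ ?_ i ?_
          · exact h7
          · rw [hI]
            refine (Finset.card_insert_le _ _).trans ?_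
            rw [Finset.card_range]
            omega
          · intro β hβ
            rw [← hm l hl α β (by omega)]
            apply Finset.sum_subset
            · intro j hj
              rw [hI, Finset.mem_insert, Finset.mem_range] at hj
              rw [Finset.mem_range]
              omega
            · intro j hj hj2
              rw [hI, Finset.mem_insert, Finset.mem_range] at hj2
              rw [Finset.mem_range] at hj
              push Not at hj2
              rw [hz j l α (h4 j (by omega) (by omega)), zero_mul]
          · rw [hI, Finset.mem_insert, Finset.mem_range]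
            omega
  obtain ⟨hI1, hI2⟩ := hI m le_rfl
  have h3 : ∀ X ∈ R m, a m X = 0 := by
    apply Pool.Agent.Helper65.Nag.HOR.root
      (fun l : Fin b => if (l : ℕ) < p then m else 0) (R m) (fun X => a m X)
    · intro l α hα
      by_cases hl : (l : ℕ) < p
      · rw [if_pos hl] at hα
        have h4 := hI2 l hl m le_rfl α hα
        rw [hG] at h4
        exact h4
      · rw [if_neg hl] at hα
        omega
    · refine le_trans h2 (le_of_eq ?_)
      have h4 : ∑ l : Fin b, (if (l : ℕ) < p then m else 0) =
          ∑ i ∈ Finset.range b, (if i < p then m else 0) :=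
        Fin.sum_univ_eq_sum_range (fun i => if i < p then m else 0) b
      have h5 : ∑ i ∈ Finset.range b, (if i < p then m else 0) =
          ∑ i ∈ (Finset.range b).filter (fun i => i < p), m := by
        rw [Finset.sum_filter]
      have h6 : ((Finset.range b).filter (fun i => i < p)).card = p := by
        have h7 : (Finset.range b).filter (fun i => i < p) = Finset.range p := by
          ext i
          rw [Finset.mem_filter, Finset.mem_range, Finset.mem_range]
          omega
        rw [h7, Finset.card_range]
      rw [h4, h5, Finset.sum_const, h6, smul_eq_mul]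
  intro i hi X hX
  by_cases h5 : i = m
  · subst h5
    exact h3 X hX
  · exact hI1 i (by omega) (by omega) X hX

end Pool.Agent.Helper98.UN.MOVG
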