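import Pool.Agent.Helper98.UN.MOV

/-!
PROJECT UN (MP_d3128a_ag), the compression (helper98).

`S` a finite set of monomials `y^j x^X` (`(j, X)` in `ℕ × ℤ`). Replace the exponents `j` of the column `X` by
`0, 1, ..., r - 1`, `r` the number of the points of the column. If `T'` is contained in the compressed set and
independent for multiplicities `M l` at the points `(x l, z l)`, then for a suitable rational `ε > 0`, all the
`1 + ε z l` positive, a subset of `S` with as many elements is independent at the points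
`(x l, 1 + ε z l)`.
-/

set_option autoImplicit false

noncomputable section

namespace Pool.Agent.Helper98.UN

open Pool.Agent.Helper97.Nag

/-- independence of the monomials `y^j x^X`, `(j, X)` in `S`, for the conditions of multiplicity `M l`
at the points `(x l, y l)` of the torus -/
def IndepW {b : ℕ} (M : Fin b → ℕ) (x y : Fin b → ℚ) (S : Finset (ℕ × ℤ)) : Prop :=
  ∀ a : ℕ × ℤ → ℚ,
    (∀ (l : Fin b) (α β : ℕ), α + β < M l →
      ∑ q ∈ S, a q * (((q.1.choose β : ℕ) : ℚ) * y l ^ q.1 *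
        (((Ring.choose q.2 α : ℤ) : ℚ) * x l ^ q.2)) = 0) →
    ∀ q ∈ S, a q = 0

/-- the exponents of the column `X` -/
def col (S : Finset (ℕ × ℤ)) (X : ℤ) : Finset ℕ := (S.filter fun q => q.2 = X).image Prod.fst

theorem mem_col (S : Finset (ℕ × ℤ)) (X : ℤ) (j : ℕ) : j ∈ col S X ↔ (j, X) ∈ S := by
  unfold col
  rw [Finset.mem_image]
  constructor
  · rintro ⟨q, hq, rfl⟩
    rw [Finset.mem_filter] at hq
    rw [← hq.2]
    exact hq.1
  · intro h
    exact ⟨(j, X), Finset.mem_filter.2 ⟨h, rfl⟩, rfl⟩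

/-- interpolation in a column -/
theorem lam (J : Finset ℕ) (i : ℕ) : ∃ c : ℕ → ℚ,
    ∀ k < J.card, ∑ j ∈ J, c j * ((j.choose k : ℕ) : ℚ) = if k = i then 1 else 0 := by
  classical
  obtain ⟨f, hf⟩ : ∃ f : (J → ℚ) →ₗ[ℚ] (Fin J.card → ℚ), f =
      LinearMap.pi fun k : Fin J.card => ∑ j : J, ((((j : ℕ).choose k : ℕ) : ℚ)) •
        (LinearMap.proj j : (J → ℚ) →ₗ[ℚ] ℚ) := ⟨_, rfl⟩
  have hf2 : ∀ c k, f c k = ∑ j : J, c j * (((j : ℕ).choose k : ℕ) : ℚ) := by
    intro c k
    rw [hf, LinearMap.pi_apply, LinearMap.sum_apply]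
    apply Finset.sum_congr rfl
    intro j _
    rw [LinearMap.smul_apply, LinearMap.proj_apply, smul_eq_mul, mul_comm]
  have hinj : Function.Injective f := by
    rw [← LinearMap.ker_eq_bot, LinearMap.ker_eq_bot']
    intro c hc
    obtain ⟨c', hc'⟩ : ∃ c' : ℕ → ℚ, ∀ j : J, c' j = c j :=
      ⟨fun j => if h : j ∈ J then c ⟨j, h⟩ else 0, fun j => by
        change (if h : (j : ℕ) ∈ J then c ⟨j, h⟩ else 0) = c j
        rw [dif_pos j.2]⟩
    have h1 := one J.card J c' le_rfl ?_
    · funext j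
      rw [← hc' j]
      exact h1 j j.2
    · intro β hβ
      have h2 := congrFun hc ⟨β, hβ⟩
      rw [hf2] at h2
      rw [← Finset.sum_coe_sort]
      simp only [hc']
      exact h2
  have hsurj : Function.Surjective f := by
    rw [← LinearMap.injective_iff_surjective_of_finrank_eq_finrank]
    · exact hinj
    · simp
  obtain ⟨c, hc⟩ := hsurj (fun k => if (k : ℕ) = i then 1 else 0)
  refine ⟨fun j => if h : j ∈ J then c ⟨j, h⟩ else 0, ?_⟩
  intro k hk
  have h1 := congrFun hc ⟨k, hk⟩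
  rw [hf2] at h1
  rw [← Finset.sum_coe_sort]
  simp only [Finset.coe_mem, dif_pos, Subtype.coe_eta]
  exact h1

/-- generic independence -/
theorem gen {V : Type} [AddCommGroup V] [Module ℚ V] {ι : Type} [Fintype ι] [DecidableEq ι]
    (u : ι → ℕ → V) (K : ℕ) (h : LinearIndependent ℚ fun t => u t 0) (E : Set ℚ) (hE : E.Infinite) :
    ∃ ε ∈ E, LinearIndependent ℚ fun t => ∑ k ∈ Finset.range (K + 1), ε ^ k • u t k := by
  classical
  obtain ⟨f, hf⟩ : ∃ f : (ι → ℚ) →ₗ[ℚ] V, f = Fintype.linearCombination ℚ (fun t => u t 0) :=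
    ⟨_, rfl⟩
  have hinj : LinearMap.ker f = ⊥ := by
    rw [LinearMap.ker_eq_bot, hf]
    exact linearIndependent_iff_injective_fintypeLinearCombination.1 h
  obtain ⟨g, hg⟩ := LinearMap.exists_leftInverse_of_injective f hinj
  have hg2 : ∀ t, g (u t 0) = Pi.single t 1 := by
    intro t
    have h1 := congrArg (fun F : (ι → ℚ) →ₗ[ℚ] (ι → ℚ) => F (Pi.single t 1)) hg
    simp only [LinearMap.comp_apply, LinearMap.id_apply] at h1
    rw [hf, Fintype.linearCombination_apply_single, one_smul] at h1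
    exact h1
  obtain ⟨N, hN⟩ : ∃ N : Matrix ι ι (Polynomial ℚ), N = Matrix.of fun s t =>
      ∑ k ∈ Finset.range (K + 1), Polynomial.C (g (u t k) s) * Polynomial.X ^ k := ⟨_, rfl⟩
  have hev : ∀ ε s t, Polynomial.eval ε (N s t) =
      g (∑ k ∈ Finset.range (K + 1), ε ^ k • u t k) s := by
    intro ε s t
    rw [hN, Matrix.of_apply, Polynomial.eval_finsetSum, map_sum, Finset.sum_apply]
    apply Finset.sum_congr rfl
    intro k _
    rw [Polynomial.eval_mul, Polynomial.eval_C, Polynomial.eval_pow, Polynomial.eval_X,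
      map_smul, Pi.smul_apply, smul_eq_mul, mul_comm]
  have hdet : ∀ ε, Polynomial.eval ε N.det = (Matrix.of fun s t => Polynomial.eval ε (N s t)).det := by
    intro ε
    have h1 := RingHom.map_det (Polynomial.evalRingHom ε) N
    rw [Polynomial.coe_evalRingHom] at h1
    rw [h1]
    congr 1
  have h0 : Polynomial.eval 0 N.det = 1 := by
    rw [hdet]
    have h1 : (Matrix.of fun s t => Polynomial.eval 0 (N s t)) = (1 : Matrix ι ι ℚ) := by
      ext s t
      rw [Matrix.of_apply, hev, Finset.sum_range_succ']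
      have h2 : ∑ k ∈ Finset.range K, (0 : ℚ) ^ (k + 1) • u t (k + 1) = 0 := by
        apply Finset.sum_eq_zero
        intro k _
        rw [zero_pow (by omega), zero_smul]
      rw [h2, pow_zero, one_smul, zero_add, hg2, Matrix.one_apply, Pi.single_apply]
    rw [h1, Matrix.det_one]
  have hne : N.det ≠ 0 := by
    intro h1
    rw [h1, Polynomial.eval_zero] at h0
    exact zero_ne_one h0
  have hfin : {ε : ℚ | Polynomial.eval ε N.det = 0}.Finite := by
    have h1 := Polynomial.finite_setOfPred_isRoot hne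
    exact h1
  obtain ⟨ε, hε, hε2⟩ := (hE.sdiff hfin).nonempty
  refine ⟨ε, hε, ?_⟩
  rw [Fintype.linearIndependent_iff]
  intro c hc
  have h1 : (Matrix.of fun s t => Polynomial.eval ε (N s t)).mulVec c = 0 := by
    funext s
    rw [Matrix.mulVec, dotProduct]
    simp only [Matrix.of_apply, hev]
    have h2 := congrFun (congrArg g hc) s
    rw [map_sum, map_zero, Finset.sum_apply, Pi.zero_apply] at h2
    rw [Pi.zero_apply, ← h2]
    apply Finset.sum_congr rfl
    intro t _
    rw [map_smul, Pi.smul_apply, smul_eq_mul, mul_comm]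
  have h2 : (Matrix.of fun s t => Polynomial.eval ε (N s t)).det ≠ 0 := by
    rw [← hdet]
    exact hε2
  have h3 := Matrix.eq_zero_of_mulVec_eq_zero h2 h1
  intro t
  rw [h3, Pi.zero_apply]

/-- subfamilies -/
theorem sub {V : Type} [AddCommGroup V] [Module ℚ V] {σ : Type} [DecidableEq σ] (S : Finset σ)
    (w : σ → V) {ι : Type} [Fintype ι] (v : ι → V) (hv : LinearIndependent ℚ v)
    (hs : ∀ t, v t ∈ Submodule.span ℚ (w '' (S : Set σ))) :
    ∃ S' ⊆ S, S'.card = Fintype.card ι ∧ LinearIndepOn ℚ w (S' : Set σ) := by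
  classical
  obtain ⟨B, hBS, -, hsp, hB⟩ := exists_linearIndepOn_extension (K := ℚ) (v := w)
    (s := (∅ : Set σ)) (t := (S : Set σ)) (by simp) (by simp)
  have hfB : B.Finite := S.finite_toSet.subset hBS
  obtain ⟨B', hB'⟩ : ∃ B' : Finset σ, (B' : Set σ) = B := ⟨hfB.toFinset, hfB.coe_toFinset⟩
  have h1 : Fintype.card ι ≤ B'.card := by
    have h2 : ∀ t, v t ∈ Submodule.span ℚ (w '' (B' : Set σ)) := by
      intro t
      have h3 : Submodule.span ℚ (w '' (S : Set σ)) ≤ Submodule.span ℚ (w '' (B' : Set σ)) := by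
        rw [Submodule.span_le, hB']
        exact hsp
      exact h3 (hs t)
    obtain ⟨W, hW⟩ : ∃ W : Submodule ℚ V, W = Submodule.span ℚ (w '' (B' : Set σ)) := ⟨_, rfl⟩
    have hfd : FiniteDimensional ℚ W := by
      rw [hW]
      exact FiniteDimensional.span_of_finite ℚ (B'.finite_toSet.image w)
    have h4 : LinearIndependent ℚ fun t => (⟨v t, by rw [hW]; exact h2 t⟩ : W) := by
      rw [← LinearMap.linearIndependent_iff W.subtype (by simp)]
      exact hv
    have h5 := h4.fintype_card_le_finrank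
    refine h5.trans ?_
    rw [hW]
    have h6 := finrank_span_finset_le_card (R := ℚ) (B'.image w)
    rw [Finset.coe_image] at h6
    exact h6.trans Finset.card_image_le
  obtain ⟨S', hS', hc⟩ := Finset.exists_subset_card_eq h1
  refine ⟨S', ?_, hc, ?_⟩
  · intro s hs'
    have h2 : s ∈ (B' : Set σ) := hS' hs'
    rw [hB'] at h2
    exact hBS h2
  · apply hB.mono
    rw [← hB']
    exact hS'

/-- the binomial identity -/
theorem bin (j n β : ℕ) (hj : j ≤ n) (ε z : ℚ) :
    ∑ k ∈ Finset.range (n + 1), ((j.choose k : ℕ) : ℚ) * (ε ^ k * (((k.choose β : ℕ) : ℚ) *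
      z ^ (k - β))) = ε ^ β * (((j.choose β : ℕ) : ℚ) * (1 + ε * z) ^ (j - β)) := by
  classical
  by_cases hβ : β ≤ j
  · have h1 : ∑ k ∈ Finset.range (n + 1), ((j.choose k : ℕ) : ℚ) * (ε ^ k * (((k.choose β : ℕ) : ℚ) *
        z ^ (k - β))) = ∑ k ∈ Finset.Ico β (j + 1), ((j.choose k : ℕ) : ℚ) *
          (ε ^ k * (((k.choose β : ℕ) : ℚ) * z ^ (k - β))) := by
      symm
      apply Finset.sum_subset
      · intro k hk
        rw [Finset.mem_Ico] at hk
        rw [Finset.mem_range]
        omega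
      · intro k hk hk2
        rw [Finset.mem_range] at hk
        rw [Finset.mem_Ico] at hk2
        by_cases h2 : k < β
        · rw [Nat.choose_eq_zero_of_lt h2]
          simp
        · rw [Nat.choose_eq_zero_of_lt (show j < k by omega)]
          simp
    rw [h1, Finset.sum_Ico_eq_sum_range, add_comm (1 : ℚ), add_pow, Finset.mul_sum, Finset.mul_sum]
    have h2 : j + 1 - β = j - β + 1 := by omega
    rw [h2]
    apply Finset.sum_congr rfl
    intro i hi
    rw [Finset.mem_range] at hi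
    have h3 : j.choose (β + i) * (β + i).choose β = j.choose β * (j - β).choose i := by
      have h4 := Nat.choose_mul (n := j) (k := β + i) (s := β) (by omega)
      rw [h4, Nat.add_sub_cancel_left]
    have h5 : ((j.choose (β + i) : ℕ) : ℚ) * (((β + i).choose β : ℕ) : ℚ) =
        ((j.choose β : ℕ) : ℚ) * (((j - β).choose i : ℕ) : ℚ) := by exact_mod_cast h3
    have h6 : β + i - β = i := by omega
    rw [h6, one_pow, mul_one, mul_pow, pow_add]
    linear_combination (ε ^ β * ε ^ i * z ^ i) * h5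
  · rw [Nat.choose_eq_zero_of_lt (show j < β by omega)]
    simp only [Nat.cast_zero, zero_mul, mul_zero]
    apply Finset.sum_eq_zero
    intro k _
    by_cases h2 : k < β
    · rw [Nat.choose_eq_zero_of_lt h2]
      simp
    · rw [Nat.choose_eq_zero_of_lt (show j < k by omega)]
      simp

section Main

variable {b : ℕ} (M : Fin b → ℕ) (x z y : Fin b → ℚ)

/-- the column of the compressed monomial `(i, X)` -/
def colC (q : ℕ × ℤ) : Fin b → ℕ → ℕ → ℚ := fun l α β =>
  if α + β < M l then ((q.1.choose β : ℕ) : ℚ) * z l ^ (q.1 - β) *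
    (((Ring.choose q.2 α : ℤ) : ℚ) * x l ^ q.2) else 0

/-- the column of the monomial `(j, X)` -/
def colW (q : ℕ × ℤ) : Fin b → ℕ → ℕ → ℚ := fun l α β =>
  if α + β < M l then ((q.1.choose β : ℕ) : ℚ) * y l ^ q.1 *
    (((Ring.choose q.2 α : ℤ) : ℚ) * x l ^ q.2) else 0

theorem indepC_li (T : Finset (ℕ × ℤ)) (h : IndepC M x z T) :
    LinearIndependent ℚ fun t : T => colC M x z (t : ℕ × ℤ) := by
  classical
  rw [Fintype.linearIndependent_iff]
  intro g hg t
  obtain ⟨a, ha⟩ : ∃ a : ℕ × ℤ → ℚ, ∀ t : T, a t = g t :=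
    ⟨fun q => if h : q ∈ T then g ⟨q, h⟩ else 0, fun q => by
      change (if h : (q : ℕ × ℤ) ∈ T then g ⟨q, h⟩ else 0) = g q
      rw [dif_pos q.2]⟩
  rw [← ha t]
  apply h a ?_ _ t.2
  intro l α β hαβ
  have h1 := congrFun (congrFun (congrFun hg l) α) β
  rw [Finset.sum_apply, Finset.sum_apply, Finset.sum_apply] at h1
  rw [← Finset.sum_coe_sort]
  refine Eq.trans ?_ h1
  apply Finset.sum_congr rfl
  intro q _
  rw [ha]
  change g q * _ = g q * colC M x z (q : ℕ × ℤ) l α β
  unfold colC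
  rw [if_pos hαβ]

theorem li_indepW (S : Finset (ℕ × ℤ)) (h : LinearIndepOn ℚ (colW M x y) (S : Set (ℕ × ℤ))) :
    IndepW M x y S := by
  classical
  intro a ha q hq
  have h1 := (linearIndepOn_finset_iff).1 h a ?_ q hq
  · exact h1
  · funext l α β
    rw [Finset.sum_apply, Finset.sum_apply, Finset.sum_apply]
    by_cases hαβ : α + β < M l
    · refine Eq.trans ?_ (ha l α β hαβ)
      apply Finset.sum_congr rfl
      intro q _
      change a q * colW M x y q l α β = _
      unfold colW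
      rw [if_pos hαβ]
    · apply Finset.sum_eq_zero
      intro q _
      change a q * colW M x y q l α β = _
      unfold colW
      rw [if_neg hαβ, mul_zero]

/-- rescaling of the rows -/
def scl (c : Fin b → ℚ) : (Fin b → ℕ → ℕ → ℚ) →ₗ[ℚ] (Fin b → ℕ → ℕ → ℚ) where
  toFun v := fun l α β => c l ^ β * v l α β
  map_add' v w := by
    funext l α β
    change c l ^ β * (v l α β + w l α β) = c l ^ β * v l α β + c l ^ β * w l α β
    ring
  map_smul' r v := by
    funext l α β
    change c l ^ β * (r * v l α β) = r * (c l ^ β * v l α β)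
    ring

/-- COMPRESSION. -/
theorem comp (S T' : Finset (ℕ × ℤ)) (hT : ∀ q ∈ T', q.1 < (col S q.2).card)
    (hI : IndepC M x z T') : ∃ ε : ℚ, 0 < ε ∧ (∀ l, 0 < 1 + ε * z l) ∧
      ∃ S' ⊆ S, S'.card = T'.card ∧ IndepW M x (fun l => 1 + ε * z l) S' := by
  classical
  -- the coefficients
  have hl : ∀ t : {q // q ∈ T'}, ∃ c : ℕ → ℚ, ∀ k < (col S (t : ℕ × ℤ).2).card,
      ∑ j ∈ col S (t : ℕ × ℤ).2, c j * ((j.choose k : ℕ) : ℚ) =
        if k = (t : ℕ × ℤ).1 then 1 else 0 := fun t => lam _ _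
  choose lm hlm using hl
  obtain ⟨K, hK⟩ : ∃ K : ℕ, ∀ q ∈ S, q.1 ≤ K := ⟨S.sup Prod.fst, fun q hq => Finset.le_sup hq⟩
  obtain ⟨B, hB⟩ : ∃ B : {q // q ∈ T'} → ℕ → ℚ, ∀ t k, B t k =
      ∑ j ∈ col S (t : ℕ × ℤ).2, lm t j * ((j.choose k : ℕ) : ℚ) := ⟨_, fun t k => rfl⟩
  have hB1 : ∀ t : {q // q ∈ T'}, B t (t : ℕ × ℤ).1 = 1 := by
    intro t
    rw [hB, hlm t _ (hT _ t.2), if_pos rfl]
  have hB0 : ∀ (t : {q // q ∈ T'}) (k : ℕ), k < (t : ℕ × ℤ).1 → B t k = 0 := by
    intro t k hk
    rw [hB, hlm t _ (lt_trans hk (hT _ t.2)), if_neg (by omega)]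
  obtain ⟨u, hu⟩ : ∃ u : {q // q ∈ T'} → ℕ → Fin b → ℕ → ℕ → ℚ, ∀ t k, u t k =
      B t ((t : ℕ × ℤ).1 + k) • colC M x z ((t : ℕ × ℤ).1 + k, (t : ℕ × ℤ).2) := ⟨_, fun t k => rfl⟩
  have hu0 : LinearIndependent ℚ fun t => u t 0 := by
    have h1 : (fun t => u t 0) = fun t : {q // q ∈ T'} => colC M x z (t : ℕ × ℤ) := by
      funext t
      rw [hu, add_zero, hB1, one_smul]
    rw [h1]
    exact indepC_li M x z T' hI
  obtain ⟨E, hE⟩ : ∃ E : Set ℚ, E = Set.Ioo 0 (1 / (1 + ∑ l, |z l|)) := ⟨_, rfl⟩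
  have hpos : 0 < 1 + ∑ l, |z l| := by
    have h1 : 0 ≤ ∑ l, |z l| := Finset.sum_nonneg fun l _ => abs_nonneg _
    linarith
  have hEi : E.Infinite := by
    rw [hE]
    exact Set.Ioo_infinite (by positivity)
  obtain ⟨ε, hε, hli⟩ := gen u K hu0 E hEi
  rw [hE, Set.mem_Ioo] at hε
  have hy : ∀ l, 0 < 1 + ε * z l := by
    intro l
    have h1 : |z l| ≤ ∑ l, |z l| :=
      Finset.single_le_sum (f := fun l => |z l|) (fun l _ => abs_nonneg _) (Finset.mem_univ l)
    have h2 : ε * (1 + ∑ l, |z l|) < 1 := (lt_div_iff₀ hpos).1 hε.2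
    have h3 : -|z l| ≤ z l := neg_abs_le (z l)
    have h4 : ε * |z l| ≤ ε * ∑ l, |z l| := mul_le_mul_of_nonneg_left h1 hε.1.le
    nlinarith [hε.1]
  obtain ⟨D, hD⟩ : ∃ D : (Fin b → ℕ → ℕ → ℚ) →ₗ[ℚ] (Fin b → ℕ → ℕ → ℚ),
      D = scl (fun l => ε / (1 + ε * z l)) := ⟨_, rfl⟩
  have hkey : ∀ t : {q // q ∈ T'}, ∑ k ∈ Finset.range (K + 1), ε ^ k • u t k =
      ε⁻¹ ^ (t : ℕ × ℤ).1 • ∑ j ∈ col S (t : ℕ × ℤ).2,
        lm t j • D (colW M x (fun l => 1 + ε * z l) (j, (t : ℕ × ℤ).2)) := by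
    intro t
    obtain ⟨i, hi⟩ : ∃ i, i = (t : ℕ × ℤ).1 := ⟨_, rfl⟩
    obtain ⟨X, hX⟩ : ∃ X, X = (t : ℕ × ℤ).2 := ⟨_, rfl⟩
    have hε0 : ε ^ i ≠ 0 := pow_ne_zero _ hε.1.ne'
    rw [← hi, ← hX]
    funext l α β
    have e1 : (∑ k ∈ Finset.range (K + 1), ε ^ k • u t k) l α β =
        ∑ k ∈ Finset.range (K + 1), ε ^ k * (B t (i + k) * colC M x z (i + k, X) l α β) := by
      rw [Finset.sum_apply, Finset.sum_apply, Finset.sum_apply]
      apply Finset.sum_congr rfl
      intro k _
      rw [hu, ← hi, ← hX]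
      rfl
    have e2 : (ε⁻¹ ^ i • ∑ j ∈ col S X,
        lm t j • D (colW M x (fun l => 1 + ε * z l) (j, X))) l α β =
        ε⁻¹ ^ i * ∑ j ∈ col S X, lm t j * ((ε / (1 + ε * z l)) ^ β *
          colW M x (fun l => 1 + ε * z l) (j, X) l α β) := by
      rw [hD]
      change ε⁻¹ ^ i * (∑ j ∈ col S X, lm t j • scl (fun l => ε / (1 + ε * z l))
        (colW M x (fun l => 1 + ε * z l) (j, X))) l α β = _
      rw [Finset.sum_apply, Finset.sum_apply, Finset.sum_apply]
      rfl
    rw [e1, e2]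
    by_cases hαβ : α + β < M l
    · obtain ⟨w, hw⟩ : ∃ w : ℚ, w = ((Ring.choose X α : ℤ) : ℚ) * x l ^ X := ⟨_, rfl⟩
      have e3 : ∀ k, colC M x z (k, X) l α β = (((k.choose β : ℕ) : ℚ) * z l ^ (k - β)) * w := by
        intro k
        unfold colC
        rw [if_pos hαβ, hw]
      have e4 : ∀ j, colW M x (fun l => 1 + ε * z l) (j, X) l α β =
          (((j.choose β : ℕ) : ℚ) * (1 + ε * z l) ^ j) * w := by
        intro j
        unfold colW
        rw [if_pos hαβ, hw]
      simp only [e3, e4]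
      have e5 : ε ^ i * ∑ k ∈ Finset.range (K + 1), ε ^ k * (B t (i + k) *
          ((((i + k).choose β : ℕ) : ℚ) * z l ^ (i + k - β) * w)) =
          ∑ k ∈ Finset.range (i + K + 1), ε ^ k * (B t k *
            (((k.choose β : ℕ) : ℚ) * z l ^ (k - β) * w)) := by
        have h1 : i + K + 1 = i + (K + 1) := by omega
        rw [h1, Finset.sum_range_add (fun k => ε ^ k * (B t k *
            (((k.choose β : ℕ) : ℚ) * z l ^ (k - β) * w))) i (K + 1), Finset.mul_sum]
        have h2 : ∑ k ∈ Finset.range i, ε ^ k * (B t k *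
            (((k.choose β : ℕ) : ℚ) * z l ^ (k - β) * w)) = 0 := by
          apply Finset.sum_eq_zero
          intro k hk
          rw [Finset.mem_range, hi] at hk
          rw [hB0 t k hk]
          ring
        rw [h2, zero_add]
        apply Finset.sum_congr rfl
        intro k _
        rw [pow_add]
        ring
      have e6 : ∑ k ∈ Finset.range (i + K + 1), ε ^ k * (B t k *
            (((k.choose β : ℕ) : ℚ) * z l ^ (k - β) * w)) =
          ∑ j ∈ col S X, lm t j * ((ε / (1 + ε * z l)) ^ β *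
            (((j.choose β : ℕ) : ℚ) * (1 + ε * z l) ^ j * w)) := by
        have h1 : ∀ k, ε ^ k * (B t k * (((k.choose β : ℕ) : ℚ) * z l ^ (k - β) * w)) =
            ∑ j ∈ col S X, lm t j * w * (((j.choose k : ℕ) : ℚ) * (ε ^ k *
              (((k.choose β : ℕ) : ℚ) * z l ^ (k - β)))) := by
          intro k
          rw [hB, ← hX, Finset.sum_mul, Finset.mul_sum]
          apply Finset.sum_congr rfl
          intro j _
          ring
        simp only [h1]
        rw [Finset.sum_comm]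
        apply Finset.sum_congr rfl
        intro j hj
        rw [← Finset.mul_sum, bin j (i + K) β ?_ ε (z l)]
        · have h2 : (1 + ε * z l) ≠ 0 := (hy l).ne'
          by_cases h3 : β ≤ j
          · have h4 : (1 + ε * z l) ^ j = (1 + ε * z l) ^ (j - β) * (1 + ε * z l) ^ β := by
              rw [← pow_add]
              congr 1
              omega
            rw [h4, div_pow]
            field_simp
          · rw [Nat.choose_eq_zero_of_lt (by omega)]
            simp
        · have h2 := hK (j, X) ((mem_col S X j).1 hj)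
          have h3 : j ≤ K := h2
          omega
      rw [← e6, ← e5, inv_pow, ← mul_assoc, inv_mul_cancel₀ hε0, one_mul]
    · have e3 : ∀ k, colC M x z (k, X) l α β = 0 := by
        intro k
        unfold colC
        rw [if_neg hαβ]
      have e4 : ∀ j, colW M x (fun l => 1 + ε * z l) (j, X) l α β = 0 := by
        intro j
        unfold colW
        rw [if_neg hαβ]
      simp only [e3, e4, mul_zero, Finset.sum_const_zero]
  refine ⟨ε, hε.1, hy, ?_⟩
  have hsp : ∀ t : {q // q ∈ T'}, ∑ k ∈ Finset.range (K + 1), ε ^ k • u t k ∈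
      Submodule.span ℚ ((fun q => D (colW M x (fun l => 1 + ε * z l) q)) '' (S : Set (ℕ × ℤ))) := by
    intro t
    rw [hkey t]
    apply Submodule.smul_mem
    apply Submodule.sum_mem
    intro j hj
    apply Submodule.smul_mem
    apply Submodule.subset_span
    exact ⟨(j, (t : ℕ × ℤ).2), (mem_col S _ j).1 hj, rfl⟩
  obtain ⟨S', hS', hc, hSi⟩ := sub S (fun q => D (colW M x (fun l => 1 + ε * z l) q)) _ hli hsp
  refine ⟨S', hS', ?_, ?_⟩
  · rw [hc, Fintype.card_coe]
  · apply li_indepW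
    exact LinearIndepOn.of_comp D hSi

end Main

end Pool.Agent.Helper98.UN
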