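import Pool.Agent.Helper65.Nag.HOR

/-!
PROJECT UN (MP_d3128a_ag), the mover lemma (helper98).

`b` points of multiplicity `m`: `b - p` points `(l + 1, 0)` and `p` points `(l + 1, 1)`; the monomials
`z^i x^X`, `(i, X)` in `T`. If the row `i` has at most `b (m - i) - p` monomials for `i < m`, the row `m` at
most `p m` monomials, and there are no rows beyond `m`, then the conditions have only the zero solution.
-/

set_option autoImplicit false

noncomputable section

namespace Pool.Agent.Helper98.UN

open Pool.Agent.Helper97.Nag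

/-- independence of the monomials `z^i x^X`, `(i, X)` in `T`, for the conditions of multiplicity `M l`
at the points `(x l, z l)`; `z l = 0` is allowed -/
def IndepC {b : ℕ} (M : Fin b → ℕ) (x z : Fin b → ℚ) (T : Finset (ℕ × ℤ)) : Prop :=
  ∀ a : ℕ × ℤ → ℚ,
    (∀ (l : Fin b) (α β : ℕ), α + β < M l →
      ∑ q ∈ T, a q * (((q.1.choose β : ℕ) : ℚ) * z l ^ (q.1 - β) *
        (((Ring.choose q.2 α : ℤ) : ℚ) * x l ^ q.2)) = 0) →
    ∀ q ∈ T, a q = 0

/-- the row `i` -/
def rw' (T : Finset (ℕ × ℤ)) (i : ℕ) : Finset ℤ := (T.filter fun q => q.1 = i).image Prod.snd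

theorem mem_rw' (T : Finset (ℕ × ℤ)) (i : ℕ) (X : ℤ) : X ∈ rw' T i ↔ (i, X) ∈ T := by
  unfold rw'
  rw [Finset.mem_image]
  constructor
  · rintro ⟨q, hq, rfl⟩
    rw [Finset.mem_filter] at hq
    rw [← hq.2]
    exact hq.1
  · intro h
    exact ⟨(i, X), Finset.mem_filter.2 ⟨h, rfl⟩, rfl⟩

/-- sums over `T` by rows -/
theorem sum_rows (T : Finset (ℕ × ℤ)) (m : ℕ) (hT : ∀ q ∈ T, q.1 ≤ m) (f : ℕ × ℤ → ℚ) :
    ∑ q ∈ T, f q = ∑ i ∈ Finset.range (m + 1), ∑ X ∈ rw' T i, f (i, X) := by
  classical
  have h1 : ∀ q ∈ T, q.1 ∈ Finset.range (m + 1) := fun q hq => by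
    rw [Finset.mem_range]
    have := hT q hq
    omega
  rw [← Finset.sum_fiberwise_of_maps_to h1]
  apply Finset.sum_congr rfl
  intro i _
  unfold rw'
  rw [Finset.sum_image]
  · apply Finset.sum_congr rfl
    intro q hq
    rw [Finset.mem_filter] at hq
    rw [← hq.2]
  · intro q hq q' hq' h
    rw [Finset.mem_coe, Finset.mem_filter] at hq hq'
    exact Prod.ext (hq.2.trans hq'.2.symm) h

/-- few terms with a zero of high order at one -/
theorem one (k : ℕ) (I : Finset ℕ) (c : ℕ → ℚ) (hI : I.card ≤ k)
    (h : ∀ β < k, ∑ i ∈ I, c i * ((i.choose β : ℕ) : ℚ) = 0) : ∀ i ∈ I, c i = 0 := by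
  classical
  have h1 := Pool.Agent.Helper65.Nag.HOR.root (b := 1) (fun _ => k) (I.image fun i : ℕ => (i : ℤ))
    (fun n => c n.toNat) ?_ ?_
  · intro i hi
    have h2 := h1 (i : ℤ) (Finset.mem_image_of_mem _ hi)
    simpa using h2
  · intro l α hα
    rw [Finset.sum_image]
    · have h2 := h α hα
      rw [← h2]
      apply Finset.sum_congr rfl
      intro i _
      have h3 : (l : ℕ) = 0 := by omega
      rw [h3, Ring.choose_natCast]
      simp
    · intro i _ j _ hij
      exact Nat.cast_injective hij
  · rw [Finset.card_image_of_injective _ Nat.cast_injective]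
    simpa using hI

/-- the zeros of a row: `a + 1` at the static points, `a` at the movers -/
theorem zeros (b p a : ℕ) (hp : p ≤ b) :
    b * (a + 1) - p ≤ ∑ l : Fin b, (if (l : ℕ) < b - p then a + 1 else a) := by
  have h1 : ∑ l : Fin b, (if (l : ℕ) < b - p then a + 1 else a) =
      ∑ i ∈ Finset.range b, (if i < b - p then a + 1 else a) :=
    Fin.sum_univ_eq_sum_range (fun i => if i < b - p then a + 1 else a) b
  have h2 : ∑ i ∈ Finset.range b, (if i < b - p then a + 1 else a) =
      ∑ i ∈ Finset.range b, a + ∑ i ∈ Finset.range b, (if i < b - p then 1 else 0) := by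
    rw [← Finset.sum_add_distrib]
    apply Finset.sum_congr rfl
    intro i _
    split_ifs <;> rfl
  have h3 : ∑ i ∈ Finset.range b, (if i < b - p then 1 else 0) = b - p := by
    rw [← Finset.sum_filter, Finset.sum_const, smul_eq_mul, mul_one]
    have h4 : (Finset.range b).filter (fun i => i < b - p) = Finset.range (b - p) := by
      ext i
      rw [Finset.mem_filter, Finset.mem_range, Finset.mem_range]
      omega
    rw [h4, Finset.card_range]
  rw [h1, h2, h3, Finset.sum_const, Finset.card_range, smul_eq_mul]
  have h5 : b * (a + 1) = b * a + b := by ring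
  omega

/-- MOVER LEMMA. -/
theorem mover (b m p : ℕ) (hp : p ≤ b) (T : Finset (ℕ × ℤ)) (hT : ∀ q ∈ T, q.1 ≤ m)
    (h1 : ∀ i < m, (rw' T i).card ≤ b * (m - i) - p) (h2 : (rw' T m).card ≤ p * m) :
    IndepC (fun _ : Fin b => m) (fun l => ((l : ℕ) : ℚ) + 1)
      (fun l => if (l : ℕ) < b - p then 0 else 1) T := by
  classical
  intro a ha
  obtain ⟨G, hG⟩ : ∃ G : ℕ → Fin b → ℕ → ℚ, G = fun (i : ℕ) (l : Fin b) (α : ℕ) =>
      ∑ X ∈ rw' T i, a (i, X) * (((Ring.choose X α : ℤ) : ℚ) * (((l : ℕ) : ℚ) + 1) ^ X) := ⟨_, rfl⟩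
  -- the conditions
  have hc : ∀ (l : Fin b) (α β : ℕ), α + β < m →
      ∑ i ∈ Finset.range (m + 1), (((i.choose β : ℕ) : ℚ) *
        (if (l : ℕ) < b - p then (0 : ℚ) else 1) ^ (i - β)) * G i l α = 0 := by
    intro l α β hαβ
    have h3 := ha l α β hαβ
    rw [sum_rows T m hT] at h3
    refine Eq.trans ?_ h3
    apply Finset.sum_congr rfl
    intro i _
    rw [hG, Finset.mul_sum]
    apply Finset.sum_congr rfl
    intro X _
    ring
  -- static points
  have hs : ∀ l : Fin b, (l : ℕ) < b - p → ∀ i α, α + i < m → G i l α = 0 := by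
    intro l hl i α hi
    have h3 := hc l α i hi
    rw [Finset.sum_eq_single i] at h3
    · rw [if_pos hl, Nat.choose_self, Nat.sub_self, pow_zero] at h3
      simpa using h3
    · intro j _ hji
      rw [if_pos hl]
      rcases lt_or_gt_of_ne hji with h4 | h4
      · rw [Nat.choose_eq_zero_of_lt h4]
        simp
      · rw [zero_pow (by omega)]
        simp
    · intro h4
      exfalso
      apply h4
      rw [Finset.mem_range]
      omega
  -- movers
  have hm : ∀ l : Fin b, ¬ (l : ℕ) < b - p → ∀ α β, α + β < m →
      ∑ i ∈ Finset.range (m + 1), G i l α * ((i.choose β : ℕ) : ℚ) = 0 := by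
    intro l hl α β hαβ
    have h3 := hc l α β hαβ
    refine Eq.trans ?_ h3
    apply Finset.sum_congr rfl
    intro i _
    rw [if_neg hl, one_pow]
    ring
  have hz : ∀ i l α, (∀ X ∈ rw' T i, a (i, X) = 0) → G i l α = 0 := by
    intro i l α h3
    rw [hG]
    apply Finset.sum_eq_zero
    intro X hX
    rw [h3 X hX, zero_mul]
  -- induction
  have hI : ∀ k ≤ m, (∀ i, m - k ≤ i → i < m → ∀ X ∈ rw' T i, a (i, X) = 0) ∧
      ∀ l : Fin b, ¬ (l : ℕ) < b - p → ∀ i ≤ m, ∀ α < k, G i l α = 0 := by
    intro k
    induction k with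
    | zero =>
      intro _
      refine ⟨fun i h3 h4 => ?_, fun l _ i _ α h3 => ?_⟩
      · omega
      · omega
    | succ k ih =>
      intro hk
      obtain ⟨ih1, ih2⟩ := ih (by omega)
      have h3 : ∀ X ∈ rw' T (m - k - 1), a (m - k - 1, X) = 0 := by
        apply Pool.Agent.Helper65.Nag.HOR.root
          (fun l : Fin b => if (l : ℕ) < b - p then k + 1 else k) (rw' T (m - k - 1))
          (fun X => a (m - k - 1, X))
        · intro l α hα
          have h4 : G (m - k - 1) l α = 0 := by
            by_cases hl : (l : ℕ) < b - p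
            · rw [if_pos hl] at hα
              exact hs l hl _ _ (by omega)
            · rw [if_neg hl] at hα
              exact ih2 l hl _ (by omega) α hα
          rw [hG] at h4
          exact h4
        · refine le_trans (h1 (m - k - 1) (by omega)) (le_trans (le_of_eq ?_) (zeros b p k hp))
          have h4 : m - (m - k - 1) = k + 1 := by omega
          rw [h4]
      have h4 : ∀ i, m - (k + 1) ≤ i → i < m → ∀ X ∈ rw' T i, a (i, X) = 0 := by
        intro i h5 h6
        by_cases h7 : i = m - k - 1
        · rw [h7]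
          exact h3
        · exact ih1 i (by omega) h6
      refine ⟨h4, ?_⟩
      intro l hl i hi α hα
      by_cases hαk : α < k
      · exact ih2 l hl i hi α hαk
      · have h5 : α = k := by omega
        subst h5
        by_cases h6 : m - α - 1 ≤ i ∧ i < m
        · exact hz i l α (h4 i (by omega) h6.2)
        · obtain ⟨I, hI⟩ : ∃ I : Finset ℕ, I = insert m (Finset.range (m - α - 1)) := ⟨_, rfl⟩
          have h7 := one (m - α) I (fun i => G i l α) ?_ ?_ i ?_
          · exact h7
          · rw [hI]
            refine (Finset.card_insert_le _ _).trans ?_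
            rw [Finset.card_range]
            omega
          · intro β hβ
            rw [← hm l hl α β (by omega)]
            apply Finset.sum_subset
            · intro j hj
              rw [hI, Finset.mem_insert, Finset.mem_range] at hj
              rw [Finset.mem_range]
              omega
            · intro j hj hj2
              rw [hI, Finset.mem_insert, Finset.mem_range] at hj2
              rw [Finset.mem_range] at hj
              push Not at hj2
              rw [hz j l α (h4 j (by omega) (by omega)), zero_mul]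
          · rw [hI, Finset.mem_insert, Finset.mem_range]
            omega
  obtain ⟨hI1, hI2⟩ := hI m le_rfl
  have h3 : ∀ X ∈ rw' T m, a (m, X) = 0 := by
    apply Pool.Agent.Helper65.Nag.HOR.root
      (fun l : Fin b => if (l : ℕ) < b - p then 0 else m) (rw' T m) (fun X => a (m, X))
    · intro l α hα
      by_cases hl : (l : ℕ) < b - p
      · rw [if_pos hl] at hα
        omega
      · rw [if_neg hl] at hα
        have h4 := hI2 l hl m le_rfl α hα
        rw [hG] at h4
        exact h4
    · refine le_trans h2 (le_of_eq ?_)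
      have h4 : ∑ l : Fin b, (if (l : ℕ) < b - p then 0 else m) =
          ∑ i ∈ Finset.range b, (if i < b - p then 0 else m) :=
        Fin.sum_univ_eq_sum_range (fun i => if i < b - p then 0 else m) b
      have h5 : ∑ i ∈ Finset.range b, (if i < b - p then 0 else m) =
          ∑ i ∈ (Finset.range b).filter (fun i => ¬ i < b - p), m := by
        rw [Finset.sum_filter]
        apply Finset.sum_congr rfl
        intro i _
        by_cases h6 : i < b - p
        · rw [if_pos h6, if_neg (fun h7 => h7 h6)]
        · rw [if_neg h6, if_pos h6]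
      have h6 : ((Finset.range b).filter (fun i => ¬ i < b - p)).card = p := by
        have h7 : (Finset.range b).filter (fun i => ¬ i < b - p) = Finset.Ico (b - p) b := by
          ext i
          rw [Finset.mem_filter, Finset.mem_range, Finset.mem_Ico]
          omega
        rw [h7, Nat.card_Ico]
        omega
      rw [h4, h5, Finset.sum_const, h6, smul_eq_mul]
  intro q hq
  have h4 := hT q hq
  by_cases h5 : q.1 = m
  · have h6 := h3 q.2 ((mem_rw' T m q.2).2 (by rw [← h5]; exact hq))
    rw [← h5] at h6
    exact h6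
  · exact hI1 q.1 (by omega) (by omega) q.2 ((mem_rw' T q.1 q.2).2 hq)

end Pool.Agent.Helper98.UN
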